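import Pool.Agent.Helper15.GS.GoalsD
import Pool.Agent.Helper25.HS.NULB

/-! # Packet GS GNL: the image of the limit projector is in the nullity -/

set_option autoImplicit false

open Complex Metric Set Filter Topology MeasureTheory
open scoped ContDiff ComplexConjugate ComplexOrder Manifold Matrix

namespace Pool.Agent.Helper40.GS

open Pool.Agent.Helper95.Lin Pool.Agent.Helper16.Abund Pool.Agent.Helper92.Orb
  Pool.Agent.Helper10.SP Pool.Agent.Helper95.RK Pool.Agent.Helper57.HS
  Pool.Agent.Helper15.HS Pool.Agent.Helper15.GS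
open Pool.Agent.Helper25.HS (TT TT_add1 TT_add2 TT_add3 TT_add4 TT_smul1 TT_smul2 TT_smul3
  TT_smul4 sum_swap12_34 exists_factor)

variable {n : ℕ} {R : Fin n → Fin n → Fin n → Fin n → ℂ}

lemma TT_conj2 (h : ∀ i j k l, conj (R i j k l) = R j i l k) (a c : Fin n → ℂ) :
    conj (TT R a a c c) = TT R a a c c := by
  unfold TT
  rw [map_sum]
  simp only [map_sum, map_mul, Complex.conj_conj, h]
  rw [sum_swap12_34]
  refine Finset.sum_congr rfl fun i _ => Finset.sum_congr rfl fun j _ =>
    Finset.sum_congr rfl fun k _ => Finset.sum_congr rfl fun l _ => ?_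
  ring

/-- The pairing as a sum over the factors. -/
lemma pair_sum {α β : Type*} [Fintype α] [Fintype β] (S : α → Fin n → ℂ) (E : β → Fin n → ℂ)
    (X K : Matrix (Fin n) (Fin n) ℂ) (hX : ∀ j i, X j i = ∑ a, conj (S a j) * S a i)
    (hK : ∀ l k, K l k = ∑ b, conj (E b l) * E b k) :
    ∑ i, ∑ j, ∑ k, ∑ l, X j i * K l k * R i j k l = ∑ a, ∑ b, TT R (S a) (S a) (E b) (E b) := by
  have e1 : ∀ i j k l, X j i * K l k * R i j k l =
      ∑ a, ∑ b, R i j k l * S a i * conj (S a j) * E b k * conj (E b l) := by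
    intro i j k l
    rw [hX, hK, Finset.sum_mul, Finset.sum_mul]
    refine Finset.sum_congr rfl fun a _ => ?_
    rw [Finset.mul_sum, Finset.sum_mul]
    refine Finset.sum_congr rfl fun b _ => ?_
    ring
  simp only [e1]
  unfold TT
  have e2 : ∀ (F : Fin n → Fin n → Fin n → Fin n → α → ℂ),
      ∑ i, ∑ j, ∑ k, ∑ l, ∑ a, F i j k l a = ∑ a, ∑ i, ∑ j, ∑ k, ∑ l, F i j k l a := by
    intro F
    symm
    rw [Finset.sum_comm]
    refine Finset.sum_congr rfl fun i _ => ?_
    rw [Finset.sum_comm]
    refine Finset.sum_congr rfl fun j _ => ?_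
    rw [Finset.sum_comm]
    refine Finset.sum_congr rfl fun k _ => ?_
    rw [Finset.sum_comm]
  have e3 : ∀ (F : Fin n → Fin n → Fin n → Fin n → β → ℂ),
      ∑ i, ∑ j, ∑ k, ∑ l, ∑ a, F i j k l a = ∑ a, ∑ i, ∑ j, ∑ k, ∑ l, F i j k l a := by
    intro F
    symm
    rw [Finset.sum_comm]
    refine Finset.sum_congr rfl fun i _ => ?_
    rw [Finset.sum_comm]
    refine Finset.sum_congr rfl fun j _ => ?_
    rw [Finset.sum_comm]
    refine Finset.sum_congr rfl fun k _ => ?_
    rw [Finset.sum_comm]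
  rw [e2]
  refine Finset.sum_congr rfl fun a _ => ?_
  rw [e3]

/-- Polarization. -/
lemma polz (G : Fin n → Fin n → ℂ) (h : ∀ v : Fin n → ℂ, ∑ k, ∑ l, G k l * v k * conj (v l) = 0) :
    ∀ k l, G k l = 0 := by
  set q : (Fin n → ℂ) → (Fin n → ℂ) → ℂ := fun v w => ∑ k, ∑ l, G k l * v k * conj (w l) with hq
  have hexp : ∀ (v w : Fin n → ℂ) (z : ℂ),
      q (v + z • w) (v + z • w) = q v v + conj z * q v w + z * q w v + z * conj z * q w w := by
    intro v w z
    simp only [hq, Finset.mul_sum, ← Finset.sum_add_distrib]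
    refine Finset.sum_congr rfl fun k _ => Finset.sum_congr rfl fun l _ => ?_
    simp only [Pi.add_apply, Pi.smul_apply, smul_eq_mul, map_add, map_mul]
    ring
  have hvw : ∀ v w, q v w = 0 := by
    intro v w
    have e1 := hexp v w 1
    have e2 := hexp v w I
    have e0 : ∀ u, q u u = 0 := h
    rw [e0, e0, e0] at e1 e2
    simp only [map_one, Complex.conj_I] at e1 e2
    have e3 : q v w + q w v = 0 := by linear_combination -e1
    have e4 : I * (q w v - q v w) = 0 := by linear_combination -e2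
    have e5 : q w v - q v w = 0 := by
      rcases mul_eq_zero.1 e4 with h | h
      · exact absurd h I_ne_zero
      · exact h
    linear_combination (1 / 2 : ℂ) * (e3 - e5)
  intro k l
  have e1 := hvw (Pi.single k 1) (Pi.single l 1)
  simp only [hq] at e1
  rw [Finset.sum_eq_single k, Finset.sum_eq_single l] at e1
  · simpa using e1
  · intro b _ hb
    rw [Pi.single_eq_of_ne hb, map_zero, mul_zero]
  · intro h; exact absurd (Finset.mem_univ l) h
  · intro b _ hb
    rw [Pi.single_eq_of_ne hb]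
    simp
  · intro h; exact absurd (Finset.mem_univ k) h

/-- The algebraic core. -/
theorem core (hc : ∀ i j k l, conj (R i j k l) = R j i l k)
    (hneg : ∀ u v : Fin n → ℂ, (TT R u u v v).re ≤ 0)
    (S E : Matrix (Fin n) (Fin n) ℂ) (hE : IsUnit E.det)
    (h0 : (∑ i, ∑ j, ∑ k, ∑ l, (Sᴴ * S) j i * (Eᴴ * E) l k * R i j k l).re = 0) :
    ∀ a j k l, ∑ i, S a i * R i j k l = 0 := by
  have h1 : ∑ a, ∑ b, (TT R (S a) (S a) (E b) (E b)).re = 0 := by
    rw [← h0, pair_sum (R := R) (fun a => S a) (fun b => E b) (Sᴴ * S) (Eᴴ * E)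
      (fun j i => by rw [Matrix.mul_apply]; rfl) (fun j i => by rw [Matrix.mul_apply]; rfl),
      Complex.re_sum]
    exact Finset.sum_congr rfl fun a _ => (Complex.re_sum _ _).symm
  have h2 : ∀ a b, TT R (S a) (S a) (E b) (E b) = 0 := by
    intro a b
    have e1 : ∀ a ∈ Finset.univ, ∑ b, (TT R (S a) (S a) (E b) (E b)).re ≤ 0 := fun a _ =>
      Finset.sum_nonpos fun b _ => hneg _ _
    have e2 := (Finset.sum_eq_zero_iff_of_nonpos e1).1 h1 a (Finset.mem_univ a)
    have e3 := (Finset.sum_eq_zero_iff_of_nonpos fun b _ => hneg _ _).1 e2 b (Finset.mem_univ b)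
    exact Complex.ext e3 (Complex.conj_eq_iff_im.1 (TT_conj2 hc _ _))
  -- forms in the last two variables
  have h3 : ∀ a v, TT R (S a) (S a) v v = 0 := by
    intro a v
    set M : Matrix (Fin n) (Fin n) ℂ := Matrix.of fun l k =>
      - ∑ i, ∑ j, R i j k l * S a i * conj (S a j) with hM
    have hform : ∀ w : Fin n → ℂ, star w ⬝ᵥ M *ᵥ w = - TT R (S a) (S a) w w := by
      intro w
      have e1 : star w ⬝ᵥ M *ᵥ w = - ∑ l, ∑ k, ∑ i, ∑ j,
          R i j k l * S a i * conj (S a j) * w k * conj (w l) := by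
        simp only [dotProduct, Matrix.mulVec, hM, Matrix.of_apply, Pi.star_apply, Finset.mul_sum,
          Finset.sum_mul, neg_mul, mul_neg, Finset.sum_neg_distrib, Complex.star_def]
        congr 1
        refine Finset.sum_congr rfl fun l _ => Finset.sum_congr rfl fun k _ =>
          Finset.sum_congr rfl fun i _ => Finset.sum_congr rfl fun j _ => ?_
        ring
      rw [e1]
      unfold TT
      congr 1
      rw [Finset.sum_comm]
      rw [show (∑ k, ∑ l, ∑ i, ∑ j, R i j k l * S a i * conj (S a j) * w k * conj (w l)) =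
        ∑ k, ∑ i, ∑ l, ∑ j, R i j k l * S a i * conj (S a j) * w k * conj (w l) from
        Finset.sum_congr rfl fun k _ => Finset.sum_comm]
      rw [Finset.sum_comm]
      refine Finset.sum_congr rfl fun i _ => ?_
      rw [show (∑ k, ∑ l, ∑ j, R i j k l * S a i * conj (S a j) * w k * conj (w l)) =
        ∑ k, ∑ j, ∑ l, R i j k l * S a i * conj (S a j) * w k * conj (w l) from
        Finset.sum_congr rfl fun k _ => Finset.sum_comm]
      rw [Finset.sum_comm]
    have hpsd : M.PosSemidef := by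
      refine Matrix.PosSemidef.of_dotProduct_mulVec_nonneg ?_ fun w => ?_
      · ext l k
        simp only [Matrix.conjTranspose_apply, hM, Matrix.of_apply, star_neg, star_sum, star_mul',
          Complex.star_def, Complex.conj_conj, hc]
        congr 1
        rw [Finset.sum_comm]
        refine Finset.sum_congr rfl fun i _ => Finset.sum_congr rfl fun j _ => ?_
        ring
      · rw [hform w]
        have e1 := hneg (S a) w
        have e2 := Complex.conj_eq_iff_im.1 (TT_conj2 hc (S a) w)
        rw [Complex.le_def]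
        simp only [Complex.neg_re, Complex.neg_im, Complex.zero_re, Complex.zero_im]
        exact ⟨by linarith, by rw [e2, neg_zero]⟩
    have h4 : ∀ b, M *ᵥ (E b) = 0 := by
      intro b
      rw [← hpsd.dotProduct_mulVec_zero_iff, hform, h2, neg_zero]
    have h5 : M * Eᵀ = 0 := by
      ext l b
      have := congrFun (h4 b) l
      rw [Matrix.mul_apply]
      exact this
    have h6 : M = 0 := by
      have hEt : IsUnit (Eᵀ).det := by rw [Matrix.det_transpose]; exact hE
      calc M = M * Eᵀ * (Eᵀ)⁻¹ := by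
            rw [Matrix.mul_assoc, Matrix.mul_nonsing_inv _ hEt, Matrix.mul_one]
        _ = 0 := by rw [h5, Matrix.zero_mul]
    have h7 := hform v
    rw [h6, Matrix.zero_mulVec, dotProduct_zero] at h7
    exact neg_eq_zero.1 h7.symm
  -- forms in the first two variables
  have h4 : ∀ (a j : Fin n) (v : Fin n → ℂ),
      ∑ k, ∑ l, (∑ i, S a i * R i j k l) * v k * conj (v l) = 0 := by
    intro a j v
    set M : Matrix (Fin n) (Fin n) ℂ := Matrix.of fun j i =>
      - ∑ k, ∑ l, R i j k l * v k * conj (v l) with hM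
    have hform : ∀ w : Fin n → ℂ, star w ⬝ᵥ M *ᵥ w = - TT R w w v v := by
      intro w
      have e1 : star w ⬝ᵥ M *ᵥ w = - ∑ j, ∑ i, ∑ k, ∑ l,
          R i j k l * w i * conj (w j) * v k * conj (v l) := by
        simp only [dotProduct, Matrix.mulVec, hM, Matrix.of_apply, Pi.star_apply, Finset.mul_sum,
          Finset.sum_mul, neg_mul, mul_neg, Finset.sum_neg_distrib, Complex.star_def]
        congr 1
        refine Finset.sum_congr rfl fun j _ => Finset.sum_congr rfl fun i _ =>
          Finset.sum_congr rfl fun k _ => Finset.sum_congr rfl fun l _ => ?_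
        ring
      rw [e1]
      unfold TT
      congr 1
      rw [Finset.sum_comm]
    have hpsd : M.PosSemidef := by
      refine Matrix.PosSemidef.of_dotProduct_mulVec_nonneg ?_ fun w => ?_
      · ext j i
        simp only [Matrix.conjTranspose_apply, hM, Matrix.of_apply, star_neg, star_sum, star_mul',
          Complex.star_def, Complex.conj_conj, hc]
        congr 1
        rw [Finset.sum_comm]
        refine Finset.sum_congr rfl fun k _ => Finset.sum_congr rfl fun l _ => ?_
        ring
      · rw [hform w]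
        have e1 := hneg w v
        have e2 := Complex.conj_eq_iff_im.1 (TT_conj2 hc w v)
        rw [Complex.le_def]
        simp only [Complex.neg_re, Complex.neg_im, Complex.zero_re, Complex.zero_im]
        exact ⟨by linarith, by rw [e2, neg_zero]⟩
    have h5 : M *ᵥ (S a) = 0 := by
      rw [← hpsd.dotProduct_mulVec_zero_iff, hform, h3, neg_zero]
    have h6 := congrFun h5 j
    simp only [Matrix.mulVec, dotProduct, hM, Matrix.of_apply, neg_mul, Finset.sum_neg_distrib,
      Pi.zero_apply, neg_eq_zero, Finset.sum_mul] at h6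
    rw [← h6]
    simp only [Finset.sum_mul]
    symm
    rw [Finset.sum_comm]
    refine Finset.sum_congr rfl fun k _ => ?_
    rw [Finset.sum_comm]
    refine Finset.sum_congr rfl fun l _ => Finset.sum_congr rfl fun i _ => ?_
    ring
  intro a j k l
  exact polz (fun k l => ∑ i, S a i * R i j k l) (h4 a j) k l

/-- Packet GNL. -/
theorem gnl (hCSY : S_CSY) : S_GNL := by
  intro n W hW h hpos hs hN x hx P hPP hPH hcr i j l m
  obtain ⟨-, c2, -⟩ := hCSY W hW h hpos hs x hx
  have hHx := hpos x hx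
  have hHu : IsUnit (h x).det := isUnit_iff_ne_zero.2 hHx.det_pos.ne'
  have hG : ((h x)⁻¹).PosDef := hHx.inv
  have hK : (h x)⁻¹ * P = Pᴴ * (h x)⁻¹ * P := by
    have e1 : (h x)⁻¹ * P = Pᴴ * (h x)⁻¹ := by
      have e2 : (h x)⁻¹ * (P * h x) * (h x)⁻¹ = (h x)⁻¹ * (h x * Pᴴ) * (h x)⁻¹ :=
        congrArg (fun M => (h x)⁻¹ * M * (h x)⁻¹) hPH
      rw [Matrix.mul_assoc, Matrix.mul_assoc, Matrix.mul_nonsing_inv _ hHu, Matrix.mul_one,
        ← Matrix.mul_assoc ((h x)⁻¹) (h x), Matrix.nonsing_inv_mul _ hHu, Matrix.one_mul] at e2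
      exact e2
    calc (h x)⁻¹ * P = (h x)⁻¹ * (P * P) := by rw [hPP]
      _ = (h x)⁻¹ * P * P := by rw [Matrix.mul_assoc]
      _ = _ := by rw [e1]
  have hX : ((h x)⁻¹ * P).PosSemidef := by
    rw [hK]
    exact hG.posSemidef.conjTranspose_mul_mul_same P
  obtain ⟨S, hS⟩ : ∃ S : Matrix (Fin n) (Fin n) ℂ, (h x)⁻¹ * P = Sᴴ * S := by
    open scoped MatrixOrder in
    exact CStarAlgebra.nonneg_iff_eq_star_mul_self.mp hX.nonneg
  obtain ⟨E, hE⟩ := exists_factor hG
  have hdet : IsUnit E.det := by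
    rw [isUnit_iff_ne_zero]
    intro h0
    have h1 := hG.det_pos.ne'
    rw [hE, Matrix.det_mul, h0, mul_zero] at h1
    exact h1 rfl
  have hcr' : (∑ i, ∑ j, ∑ k, ∑ l, (Sᴴ * S) j i * (Eᴴ * E) l k * crv h x i j k l).re = 0 := by
    rw [← hS, ← hE]
    exact hcr
  have hcore := core (R := crv h x) c2 (fun u v => hN x hx u v) S E hdet hcr'
  have hP : P = h x * (Sᴴ * S) := by
    rw [← hS, ← Matrix.mul_assoc, Matrix.mul_nonsing_inv _ hHu, Matrix.one_mul]
  have e1 : ∀ p, P i p = ∑ a, (h x * Sᴴ) i a * S a p := by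
    intro p
    rw [hP, ← Matrix.mul_assoc, Matrix.mul_apply]
  simp only [e1, Finset.sum_mul]
  rw [Finset.sum_comm]
  refine Finset.sum_eq_zero fun a _ => ?_
  have e2 := hcore a j l m
  calc ∑ p, (h x * Sᴴ) i a * S a p * crv h x p j l m =
      (h x * Sᴴ) i a * ∑ p, S a p * crv h x p j l m := by
        rw [Finset.mul_sum]
        exact Finset.sum_congr rfl fun p _ => by ring
    _ = 0 := by rw [e2, mul_zero]

end Pool.Agent.Helper40.GS
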